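import Mathlib
import Pool.Agent.H964.QC.Stm2

set_option autoImplicit false

/-! # TORB: assembly of the torus -/

open Finset

namespace Pool.Agent.H404.QC

open Pool.Agent.H964.QC

theorem rr_le (n : ℕ) : (2 * (n : ℝ) + 1) * rr n ≤ 1 := by
  induction n with
  | zero => simp [rr]
  | succ n ih =>
    have h1 : ((n : ℝ) + 1) * (Nat.centralBinom (n + 1) : ℝ) =
        2 * (2 * n + 1) * (Nat.centralBinom n : ℝ) := by
      exact_mod_cast Nat.succ_mul_centralBinom_succ n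
    have hn : (0 : ℝ) < (n : ℝ) + 1 := by positivity
    have h2 : (Nat.centralBinom (n + 1) : ℝ) =
        2 * (2 * n + 1) * (Nat.centralBinom n : ℝ) / ((n : ℝ) + 1) := by
      rw [eq_div_iff hn.ne', mul_comm, h1]
    have h3 : rr (n + 1) = rr n * ((2 * (n : ℝ) + 1) / (2 * (n + 1))) ^ 2 := by
      unfold rr
      rw [h2, pow_succ]
      field_simp
      ring
    rw [h3]
    have h4 : 0 ≤ rr n := by unfold rr; positivity
    have h5 : (2 * (((n : ℕ) + 1 : ℕ) : ℝ) + 1) * ((2 * (n : ℝ) + 1) / (2 * (n + 1))) ^ 2 ≤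
        2 * (n : ℝ) + 1 := by
      push_cast
      rw [div_pow, ← mul_div_assoc, div_le_iff₀ (by positivity)]
      nlinarith
    calc (2 * (((n : ℕ) + 1 : ℕ) : ℝ) + 1) * (rr n * ((2 * (n : ℝ) + 1) / (2 * (n + 1))) ^ 2)
        = ((2 * (((n : ℕ) + 1 : ℕ) : ℝ) + 1) * ((2 * (n : ℝ) + 1) / (2 * (n + 1))) ^ 2) * rr n := by
          ring
      _ ≤ (2 * (n : ℝ) + 1) * rr n := mul_le_mul_of_nonneg_right h5 h4
      _ ≤ 1 := ih

section torus

variable {M : ℕ} [NeZero M]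

/-- parity -/
noncomputable def par (h : 2 ∣ M) : ZMod M →+* ZMod 2 := ZMod.castHom h (ZMod 2)

omit [NeZero M] in
theorem q1_par (h : 2 ∣ M) : ∀ (n : ℕ) (k : ZMod M), q1 M n k ≠ 0 → par h k = n := by
  intro n
  induction n with
  | zero =>
    intro k hk
    have : k = 0 := by
      by_contra hne
      apply hk
      simp [q1, hne]
    rw [this, map_zero, Nat.cast_zero]
  | succ n ih =>
    intro k hk
    have h2 : q1 M n (k - 1) ≠ 0 ∨ q1 M n (k + 1) ≠ 0 := by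
      by_contra hcon
      push Not at hcon
      apply hk
      rw [q1, hcon.1, hcon.2]
      norm_num
    have h3 : (1 : ZMod 2) + 1 = 0 := by decide
    rcases h2 with h2 | h2
    · have := ih _ h2
      rw [map_sub, map_one, sub_eq_iff_eq_add] at this
      rw [this]
      push_cast
      ring
    · have := ih _ h2
      rw [map_add, map_one] at this
      push_cast
      rw [← this, add_assoc, h3, add_zero]

omit [NeZero M] in
theorem q1_one (k : ZMod M) : q1 M 1 k =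
    ((if k = 1 then (1 : ℝ) else 0) + (if k = -1 then 1 else 0)) / 2 := by
  have h1 : (k - 1 = 0) = (k = 1) := by rw [sub_eq_zero]
  have h2 : (k + 1 = 0) = (k = -1) := by rw [add_eq_zero_iff_eq_neg]
  simp only [q1, h1, h2]

/-- transition probabilities on the torus -/
noncomputable def KT (M : ℕ) (n : ℕ) (x y : ZMod M × ZMod M) : ℝ :=
  q1 M n (y.1 - x.1) * q1 M n (y.2 - x.2)

/-- squared distance to the origin -/
noncomputable def dT (x : ZMod M × ZMod M) : ℝ :=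
  (x.1.valMinAbs : ℝ) ^ 2 + (x.2.valMinAbs : ℝ) ^ 2

omit [NeZero M] in
theorem par_diff (h : 2 ∣ M) (a b : ZMod M) (hab : par h a = par h b) :
    ∃ i : ℤ, a.valMinAbs - b.valMinAbs = 2 * i ∧ a - b = ((2 * i : ℤ) : ZMod M) := by
  have h1 : ((a.valMinAbs - b.valMinAbs : ℤ) : ZMod M) = a - b := by
    rw [Int.cast_sub, ZMod.coe_valMinAbs, ZMod.coe_valMinAbs]
  have h2 : ((a.valMinAbs - b.valMinAbs : ℤ) : ZMod 2) = 0 := by
    have h3 : par h (((a.valMinAbs - b.valMinAbs : ℤ) : ZMod M)) = 0 := by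
      rw [h1, map_sub, hab, sub_self]
    rwa [map_intCast] at h3
  have h4 : (2 : ℤ) ∣ a.valMinAbs - b.valMinAbs := by
    have := (ZMod.intCast_zmod_eq_zero_iff_dvd (a.valMinAbs - b.valMinAbs) 2).1 h2
    exact_mod_cast this
  obtain ⟨i, hi⟩ := h4
  exact ⟨i, hi, by rw [← h1, hi]⟩

end torus

theorem low_aux {q0 A B a b : ℝ} (hq : 0 ≤ q0) (ha : 0 ≤ a) (hb : 0 ≤ b) (hA0 : 0 ≤ A)
    (hB0 : 0 ≤ B) (hA : q0 * (1 - a) ≤ A) (hB : q0 * (1 - b) ≤ B) :
    q0 ^ 2 * (1 - a - b) ≤ A * B := by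
  by_cases h : 1 - a - b ≤ 0
  · have : q0 ^ 2 * (1 - a - b) ≤ 0 := mul_nonpos_of_nonneg_of_nonpos (by positivity) h
    exact this.trans (mul_nonneg hA0 hB0)
  · push Not at h
    have h1 : 0 ≤ 1 - a := by linarith
    have h2 : 0 ≤ 1 - b := by linarith
    calc q0 ^ 2 * (1 - a - b) ≤ q0 ^ 2 * ((1 - a) * (1 - b)) := by
          refine mul_le_mul_of_nonneg_left ?_ (by positivity)
          nlinarith [mul_nonneg ha hb]
      _ = (q0 * (1 - a)) * (q0 * (1 - b)) := by ring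
      _ ≤ A * B := mul_le_mul hA hB (mul_nonneg hq h2) hA0

/-- the walk on the torus -/
theorem exists_walk (C : ℝ) (hC : 1 ≤ C) (N0 M : ℕ) [NeZero M] (h2 : 2 ∣ M)
    (a1 : ∀ n k, 0 ≤ q1 M n k) (a2 : ∀ n k, q1 M n (-k) = q1 M n k)
    (a3 : ∀ m n z, q1 M (m + n) z = ∑ y, q1 M m y * q1 M n (z - y))
    (a4 : ∀ n, ∑ y, q1 M n y = 1)
    (a5 : ∀ n, n ≤ N0 → q1 M (2 * n) 0 ^ 2 = rr n)
    (a6 : ∀ n k, 1 ≤ n → n ≤ N0 → q1 M n k ≤ C / Real.sqrt n)
    (a7 : ∀ (n : ℕ) (i : ℤ), 1 ≤ n → n ≤ N0 →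
      q1 M (2 * n) 0 * (1 - (i : ℝ) ^ 2 / n) ≤ q1 M (2 * n) ((2 * i : ℤ) : ZMod M))
    (a8 : ∀ (n : ℕ) (x : ZMod M),
      ∑ y, q1 M n y * ((x + y).valMinAbs : ℝ) ^ 2 ≤ (x.valMinAbs : ℝ) ^ 2 + n) :
    ∃ W : Wlk (ZMod M × ZMod M) (C ^ 2 + 2) N0, W.K = KT M ∧ W.d = dT ∧
      W.cls = fun (t : ℕ) (x : ZMod M × ZMod M) => par h2 x.1 = t ∧ par h2 x.2 = t := by
  have sft : ∀ (f : ZMod M → ℝ) (x : ZMod M), ∑ y, f (y - x) = ∑ y, f y := fun f x =>
    Fintype.sum_equiv (Equiv.subRight x) _ _ fun y => rfl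
  have hsum1 : ∀ (n : ℕ) (x : ZMod M), ∑ y, q1 M n (y - x) = 1 := fun n x => by
    rw [sft (fun y => q1 M n y) x, a4]
  have hd1 : ∀ (n : ℕ) (x : ZMod M), ∑ y, q1 M n (y - x) * (y.valMinAbs : ℝ) ^ 2 ≤
      (x.valMinAbs : ℝ) ^ 2 + n := by
    intro n x
    refine le_trans (le_of_eq ?_) (a8 n x)
    rw [← sft (fun y => q1 M n y * ((x + y).valMinAbs : ℝ) ^ 2) x]
    refine Finset.sum_congr rfl fun y _ => ?_
    rw [add_sub_cancel]
  refine ⟨{
    K := KT M
    d := dT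
    cls := fun (t : ℕ) (x : ZMod M × ZMod M) => par h2 x.1 = t ∧ par h2 x.2 = t
    one_le := by nlinarith
    d_nonneg := fun x => by unfold dT; positivity
    K_nonneg := fun n x y => mul_nonneg (a1 _ _) (a1 _ _)
    K_symm := fun n x y => by
      unfold KT
      rw [← a2 n (y.1 - x.1), ← a2 n (y.2 - x.2), neg_sub, neg_sub]
    K_zero := fun x y => by
      unfold KT
      simp only [q1, sub_eq_zero]
      by_cases h : x = y
      · subst h
        simp
      · rw [if_neg h]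
        by_cases h1 : y.1 = x.1
        · have h3 : y.2 ≠ x.2 := fun h4 => h (Prod.ext h1.symm h4.symm)
          rw [if_neg h3, mul_zero]
        · rw [if_neg h1, zero_mul]
    K_add := fun m n x z => by
      unfold KT
      have e : ∀ a b : ZMod M, q1 M (m + n) (b - a) =
          ∑ y, q1 M m (y - a) * q1 M n (b - y) := by
        intro a b
        rw [a3, ← sft (fun y => q1 M m y * q1 M n (b - a - y)) a]
        refine Finset.sum_congr rfl fun y _ => ?_
        congr 2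
        ring
      rw [e, e, Finset.sum_mul_sum, Fintype.sum_prod_type]
      refine Finset.sum_congr rfl fun y _ => Finset.sum_congr rfl fun y' _ => ?_
      ring
    K_sum := fun n x => by
      unfold KT
      rw [Fintype.sum_prod_type]
      simp only
      rw [← Finset.sum_mul_sum, hsum1, hsum1, one_mul]
    K_ret := fun n x hn => by
      unfold KT
      rw [sub_self, sub_self, ← sq, a5 n hn]
    K_sup := fun n x y h1 hn => by
      unfold KT
      have hs : 0 < Real.sqrt n := Real.sqrt_pos.2 (by exact_mod_cast h1)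
      have hn0 : (0 : ℝ) < n := by exact_mod_cast h1
      calc q1 M n (y.1 - x.1) * q1 M n (y.2 - x.2) ≤ C / Real.sqrt n * (C / Real.sqrt n) :=
            mul_le_mul (a6 _ _ h1 hn) (a6 _ _ h1 hn) (a1 _ _) (by positivity)
        _ = C ^ 2 / n := by
            rw [div_mul_div_comm, Real.mul_self_sqrt hn0.le, sq]
        _ ≤ (C ^ 2 + 2) / n := by
            refine div_le_div_of_nonneg_right ?_ hn0.le
            linarith
    K_low := fun n t x y h1 hn hx hy => by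
      have hn0 : (0 : ℝ) < n := by exact_mod_cast h1
      obtain ⟨i, hi1, hi2⟩ := par_diff h2 y.1 x.1 (hy.1.trans hx.1.symm)
      obtain ⟨j, hj1, hj2⟩ := par_diff h2 y.2 x.2 (hy.2.trans hx.2.symm)
      unfold KT
      rw [hi2, hj2]
      have key := low_aux (q0 := q1 M (2 * n) 0) (a := (i : ℝ) ^ 2 / n) (b := (j : ℝ) ^ 2 / n)
        (a1 _ _) (by positivity) (by positivity) (a1 (2 * n) ((2 * i : ℤ) : ZMod M))
        (a1 (2 * n) ((2 * j : ℤ) : ZMod M)) (a7 n i h1 hn) (a7 n j h1 hn)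
      refine le_trans ?_ key
      rw [a5 n hn]
      have hr0 : 0 ≤ rr n := by unfold rr; positivity
      have hr := rr_le n
      have hr2 : rr n * n ≤ 1 := by nlinarith
      have hi3 : (2 * (i : ℝ)) = (y.1.valMinAbs : ℝ) - (x.1.valMinAbs : ℝ) := by
        exact_mod_cast hi1.symm
      have hj3 : (2 * (j : ℝ)) = (y.2.valMinAbs : ℝ) - (x.2.valMinAbs : ℝ) := by
        exact_mod_cast hj1.symm
      have hij : (i : ℝ) ^ 2 + (j : ℝ) ^ 2 ≤ dT x + dT y := by
        unfold dT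
        have e1 : (i : ℝ) = ((y.1.valMinAbs : ℝ) - (x.1.valMinAbs : ℝ)) / 2 := by linarith
        have e2 : (j : ℝ) = ((y.2.valMinAbs : ℝ) - (x.2.valMinAbs : ℝ)) / 2 := by linarith
        rw [e1, e2]
        nlinarith [sq_nonneg ((y.1.valMinAbs : ℝ) + (x.1.valMinAbs : ℝ)),
          sq_nonneg ((y.2.valMinAbs : ℝ) + (x.2.valMinAbs : ℝ)), sq_nonneg (y.1.valMinAbs : ℝ),
          sq_nonneg (x.1.valMinAbs : ℝ), sq_nonneg (y.2.valMinAbs : ℝ),
          sq_nonneg (x.2.valMinAbs : ℝ)]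
      have hd0 : 0 ≤ dT x + dT y := by unfold dT; positivity
      have h5 : rr n * ((i : ℝ) ^ 2 / n + (j : ℝ) ^ 2 / n) ≤
          (C ^ 2 + 2) * (dT x + dT y) / (n : ℝ) ^ 2 := by
        rw [le_div_iff₀ (by positivity)]
        have e3 : rr n * ((i : ℝ) ^ 2 / n + (j : ℝ) ^ 2 / n) * (n : ℝ) ^ 2 =
            (rr n * n) * ((i : ℝ) ^ 2 + (j : ℝ) ^ 2) := by
          field_simp
        rw [e3]
        have e4 : (rr n * n) * ((i : ℝ) ^ 2 + (j : ℝ) ^ 2) ≤ 1 * (dT x + dT y) :=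
          mul_le_mul hr2 hij (by positivity) (by norm_num)
        have e5 : 1 * (dT x + dT y) ≤ (C ^ 2 + 2) * (dT x + dT y) :=
          mul_le_mul_of_nonneg_right (by nlinarith) hd0
        exact e4.trans e5
      nlinarith
    K_d := fun n x hn => by
      unfold KT dT
      have e1 : ∑ y : ZMod M × ZMod M, q1 M n (y.1 - x.1) * q1 M n (y.2 - x.2) *
          ((y.1.valMinAbs : ℝ) ^ 2 + (y.2.valMinAbs : ℝ) ^ 2) =
          ∑ y, q1 M n (y - x.1) * (y.valMinAbs : ℝ) ^ 2 +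
            ∑ y, q1 M n (y - x.2) * (y.valMinAbs : ℝ) ^ 2 := by
        rw [Fintype.sum_prod_type]
        simp only
        have e2 : ∀ u v : ZMod M, q1 M n (u - x.1) * q1 M n (v - x.2) *
            ((u.valMinAbs : ℝ) ^ 2 + (v.valMinAbs : ℝ) ^ 2) =
            (q1 M n (u - x.1) * (u.valMinAbs : ℝ) ^ 2) * q1 M n (v - x.2) +
              q1 M n (u - x.1) * (q1 M n (v - x.2) * (v.valMinAbs : ℝ) ^ 2) := by
          intro u v
          ring
        simp only [e2, Finset.sum_add_distrib]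
        rw [← Finset.sum_mul_sum, ← Finset.sum_mul_sum, hsum1, hsum1, mul_one, one_mul]
      rw [e1]
      have h3 := hd1 n x.1
      have h4 := hd1 n x.2
      have h5 : (0 : ℝ) ≤ n := Nat.cast_nonneg n
      nlinarith [mul_nonneg (sq_nonneg C) h5]
    K_cls := fun n t x y hx hK => by
      unfold KT at hK
      have h3 := q1_par h2 n _ (left_ne_zero_of_mul hK)
      have h4 := q1_par h2 n _ (right_ne_zero_of_mul hK)
      rw [map_sub, sub_eq_iff_eq_add] at h3 h4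
      rw [h3, h4, hx.1, hx.2]
      push_cast
      exact ⟨add_comm _ _, add_comm _ _⟩ }, rfl, rfl, rfl⟩

/-- extension of the inverse of a map which is injective on the box -/
theorem exists_lft {V : Type} [Fintype V] (φ : ℤ × ℤ → V) (N0 : ℕ)
    (h : ∀ z z' : ℤ × ℤ, |z.1| + |z.2| ≤ N0 → |z'.1| + |z'.2| ≤ N0 → φ z = φ z' → z = z') :
    ∃ lft : V → ℤ × ℤ, Function.Injective lft ∧
      ∀ z : ℤ × ℤ, |z.1| + |z.2| ≤ N0 → lft (φ z) = z := by
  classical
  set e := Fintype.equivFin V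
  set lft : V → ℤ × ℤ := fun v =>
    if hv : ∃ z : ℤ × ℤ, |z.1| + |z.2| ≤ N0 ∧ φ z = v then hv.choose
    else ((N0 : ℤ) + 1 + ((e v : ℕ) : ℤ), 0) with hl
  have h1 : ∀ v (hv : ∃ z : ℤ × ℤ, |z.1| + |z.2| ≤ N0 ∧ φ z = v),
      |(lft v).1| + |(lft v).2| ≤ N0 ∧ φ (lft v) = v := by
    intro v hv
    have : lft v = hv.choose := by
      simp only [hl]
      rw [dif_pos hv]
    rw [this]
    exact hv.choose_spec
  have h2 : ∀ v, (¬ ∃ z : ℤ × ℤ, |z.1| + |z.2| ≤ N0 ∧ φ z = v) →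
      lft v = ((N0 : ℤ) + 1 + ((e v : ℕ) : ℤ), 0) := by
    intro v hv
    simp only [hl]
    rw [dif_neg hv]
  have h3 : ∀ v, (¬ ∃ z : ℤ × ℤ, |z.1| + |z.2| ≤ N0 ∧ φ z = v) →
      ¬ |(lft v).1| + |(lft v).2| ≤ N0 := by
    intro v hv
    rw [h2 v hv]
    simp only [abs_zero, add_zero]
    rw [abs_of_nonneg (by positivity)]
    omega
  refine ⟨lft, ?_, ?_⟩
  · intro v v' hvv
    by_cases hv : ∃ z : ℤ × ℤ, |z.1| + |z.2| ≤ N0 ∧ φ z = v
    · by_cases hv' : ∃ z : ℤ × ℤ, |z.1| + |z.2| ≤ N0 ∧ φ z = v'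
      · rw [← (h1 v hv).2, ← (h1 v' hv').2, hvv]
      · exact absurd (hvv ▸ (h1 v hv).1) (h3 v' hv')
    · by_cases hv' : ∃ z : ℤ × ℤ, |z.1| + |z.2| ≤ N0 ∧ φ z = v'
      · exact absurd (hvv.symm ▸ (h1 v' hv').1) (h3 v hv)
      · rw [h2 v hv, h2 v' hv', Prod.mk.injEq] at hvv
        have h4 : (e v : ℕ) = (e v' : ℕ) := by
          have := hvv.1
          omega
        exact e.injective (Fin.ext h4)
  · intro z hz
    have h4 := h1 (φ z) ⟨z, hz, rfl⟩
    exact h _ _ h4.1 hz h4.2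

/-- the coordinates -/
def ph (M : ℕ) (z : ℤ × ℤ) : ZMod M × ZMod M := (((z.1 + z.2 : ℤ) : ZMod M), ((z.1 - z.2 : ℤ) : ZMod M))

theorem int_inj {M N0 : ℕ} (hM : M = 4 * N0 + 4) {a b : ℤ} (ha : |a| ≤ N0) (hb : |b| ≤ N0)
    (h : (a : ZMod M) = b) : a = b := by
  have h1 : (M : ℤ) ∣ a - b := by
    have : ((a - b : ℤ) : ZMod M) = 0 := by
      push_cast
      rw [h, sub_self]
    exact (ZMod.intCast_zmod_eq_zero_iff_dvd _ _).1 this
  have h2 : |a - b| < M := by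
    have := abs_sub a b
    have h3 : (M : ℤ) = 4 * N0 + 4 := by exact_mod_cast hM
    omega
  have := Int.eq_zero_of_abs_lt_dvd h1 h2
  omega

theorem ph_inj {M N0 : ℕ} (hM : M = 4 * N0 + 4) (z z' : ℤ × ℤ) (hz : |z.1| + |z.2| ≤ N0)
    (hz' : |z'.1| + |z'.2| ≤ N0) (h : ph M z = ph M z') : z = z' := by
  unfold ph at h
  rw [Prod.mk.injEq] at h
  have e1 := int_inj hM (a := z.1 + z.2) (b := z'.1 + z'.2) ((abs_add_le _ _).trans hz)
    ((abs_add_le _ _).trans hz') h.1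
  have e2 := int_inj hM (a := z.1 - z.2) (b := z'.1 - z'.2) ((abs_sub _ _).trans hz)
    ((abs_sub _ _).trans hz') h.2
  ext
  · omega
  · omega

theorem K_one {M : ℕ} [NeZero M] (z : ℤ × ℤ) (v : ZMod M × ZMod M) :
    KT M 1 (ph M z) v = 1 / 4 * ∑ e : Fin 4, if ph M (z + stp e) = v then (1 : ℝ) else 0 := by
  unfold KT
  rw [q1_one, q1_one, Fin.sum_univ_four]
  have aux : ∀ (c d : ℤ), (ph M (z + (c, d)) = v) ↔
      (v.1 - (ph M z).1 = ((c + d : ℤ) : ZMod M) ∧ v.2 - (ph M z).2 = ((c - d : ℤ) : ZMod M)) := by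
    intro c d
    unfold ph
    rw [Prod.ext_iff]
    simp only [Prod.fst_add, Prod.snd_add]
    push_cast
    constructor
    · rintro ⟨h1, h2⟩
      rw [← h1, ← h2]
      constructor <;> ring
    · rintro ⟨h1, h2⟩
      rw [sub_eq_iff_eq_add] at h1 h2
      rw [h1, h2]
      constructor <;> ring
  have s0 : stp 0 = (1, 0) := rfl
  have s1 : stp 1 = (-1, 0) := rfl
  have s2 : stp 2 = (0, 1) := rfl
  have s3 : stp 3 = (0, -1) := rfl
  rw [s0, s1, s2, s3]
  simp only [aux]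
  set k1 := v.1 - (ph M z).1
  set k2 := v.2 - (ph M z).2
  norm_num
  have ite_and' : ∀ (P Q : Prop) [Decidable P] [Decidable Q],
      (if P ∧ Q then (1 : ℝ) else 0) = (if P then (1 : ℝ) else 0) * (if Q then 1 else 0) := by
    intro P Q _ _
    by_cases hP : P <;> by_cases hQ : Q <;> simp [hP, hQ]
  rw [ite_and', ite_and', ite_and', ite_and']
  ring

/-- **TORB** -/
theorem t_TORB : S_TORB := by
  rintro ⟨C, hC, h⟩
  refine ⟨C ^ 2 + 2, by nlinarith, fun N0 => ?_⟩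
  set M : ℕ := 4 * N0 + 4 with hM
  have : NeZero M := ⟨by omega⟩
  obtain ⟨a1, a2, a3, a4, a5, a6, a7, a8⟩ := h N0 M hM
  have h2 : 2 ∣ M := ⟨2 * N0 + 2, by omega⟩
  obtain ⟨W, hWK, hWd, hWc⟩ := exists_walk C hC N0 M h2 a1 a2 a3 a4 a5 a6 a7 a8
  obtain ⟨lft, hl1, hl2⟩ := exists_lft (ph M) N0 (ph_inj hM)
  refine ⟨ZMod M × ZMod M, inferInstance, inferInstance, W, ph M, lft, hl1, hl2, ?_, ?_, ?_⟩
  · intro z v
    rw [hWK]
    exact K_one z v
  · rw [hWc]
    simp [ph]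
  · rw [hWd]
    simp [ph, dT]

end Pool.Agent.H404.QC
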