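import Pool.Agent.H815.QC.Stm

/-!
# Project QC: P6, commutators of centralizers
-/

set_option autoImplicit false

namespace Pool.Agent.H404.QC

open Pool.Agent.Y110.FJ Pool.Agent.T2H65.GP Pool.Agent.H815.QC

theorem ind_cl (v : Fin 5) : Ind Γ1 (cl v) := by
  intro s t hs ht hst
  have hs' : s.1 = v := hs
  have ht' : t.1 = v := ht
  have h : t.1 = s.1 + 1 ∨ s.1 = t.1 + 1 := hst
  rw [hs', ht'] at h
  have : ∀ x : Fin 5, ¬ (x = x + 1 ∨ x = x + 1) := by decide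
  exact this _ h

theorem cl_nb (v : Fin 5) : ∀ t s, cl v t → nb v s → Γ1.Adj t s := by
  intro t s ht hs
  have ht' : t.1 = v := ht
  have hs' : s.1 = v + 1 ∨ v = s.1 + 1 := hs
  show s.1 = t.1 + 1 ∨ t.1 = s.1 + 1
  rw [ht']
  exact hs'

theorem pp_nb (v : Fin 5) (T : V1 → Prop) (hT : ∀ u, T u → cl v u) (h0 : ∃ u, T u) (u : V1)
    (hu : pp Γ1 T u) : nb v u := by
  obtain ⟨s, hs⟩ := h0
  have h1 : s.1 = v := hT s hs
  have h2 : s.1 = u.1 + 1 ∨ u.1 = s.1 + 1 := hu s hs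
  rw [h1] at h2
  exact h2.symm

theorem comm_std (v : Fin 5) {x y : P1} (hx : x ∈ std Γ1 B1 (cl v)) (hy : y ∈ std Γ1 B1 (nb v)) :
    x * y = y * x := std_comm Γ1 B1 (cl_nb v) hx hy

/-- a conjugate of `x` with a conjugating element in the standard subgroup -/
theorem exists_Mn_std {V : Type} [Finite V] (Λ : SimpleGraph V) (B : V → Type) [∀ v, Group (B v)]
    (S : V → Prop) (x : GrP Λ B) (hx : x ∈ std Λ B S) (hx1 : x ≠ 1) :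
    ∃ (T : V → Prop) (c : GrP Λ B), c ∈ std Λ B S ∧ (∀ u, T u → S u) ∧ (∃ u, T u) ∧
      Mn Λ B T (c⁻¹ * x * c) := by
  obtain ⟨T, c, hM⟩ := exists_Mn Λ B x
  have h1 := conj_std Λ B hx hM.1
  have h2 : Mn Λ B T ((er Λ B S c)⁻¹ * x * er Λ B S c) := by
    refine ⟨std_mono Λ B (fun v hv => hv.2) h1, fun T' h3 h4 d hd => ?_⟩
    apply hM.2 T' h3 h4 (c⁻¹ * er Λ B S c * d)
    have h5 : (c⁻¹ * er Λ B S c * d)⁻¹ * (c⁻¹ * x * c) * (c⁻¹ * er Λ B S c * d) =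
        d⁻¹ * ((er Λ B S c)⁻¹ * x * er Λ B S c) * d := by group
    rw [h5]
    exact hd
  refine ⟨T, er Λ B S c, er_mem Λ B S c, fun u hu => ?_, ?_, h2⟩
  · refine Mn_sub Λ B (T' := S) (c := 1) h2 ?_ u hu
    rw [inv_one, one_mul, mul_one]
    exact std_mono Λ B (fun v hv => hv.1) h1
  · by_contra hne
    push Not at hne
    have h3 : std Λ B T ≤ ⊥ := std_le Λ B fun v hv => absurd hv (hne v)
    have h4 := h3 h2.1
    rw [Subgroup.mem_bot] at h4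
    apply hx1
    have h5 : x = er Λ B S c * ((er Λ B S c)⁻¹ * x * er Λ B S c) * (er Λ B S c)⁻¹ := by group
    rw [h5, h4, mul_one, mul_inv_cancel]

theorem P6_proof (hB2 : S_B2) (hB3 : S_B3) : Pool.Agent.H815.QC.S_P6 := by
  intro N _ α hα hN v g x hx hx1 a b hax hbx
  have hx' : g⁻¹ * α x * g ∈ std Γ1 B1 (cl v) := mem_pb.1 hx
  have hx'1 : g⁻¹ * α x * g ≠ 1 := by
    intro h
    apply hx1
    apply hα.1
    rw [map_one]
    have h5 : α x = g * (g⁻¹ * α x * g) * g⁻¹ := by group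
    rw [h5, h, mul_one, mul_inv_cancel]
  obtain ⟨T, c, hc, hTS, hT0, hM⟩ := exists_Mn_std Γ1 B1 (cl v) _ hx' hx'1
  have hpp : ∀ y ∈ std Γ1 B1 (pp Γ1 T), y ∈ std Γ1 B1 (nb v) := fun y hy =>
    std_mono Γ1 B1 (fun u hu => pp_nb v T hTS hT0 u hu) hy
  have hTc : ∀ y ∈ std Γ1 B1 T, y ∈ std Γ1 B1 (cl v) := fun y hy => std_mono Γ1 B1 hTS hy
  have hd : c⁻¹ * (g⁻¹ * α x * g) * c ∈ std Γ1 B1 (cl v) := hTc _ hM.1
  have hd1 : c⁻¹ * (g⁻¹ * α x * g) * c ≠ 1 := by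
    intro h
    apply hx'1
    have h5 : g⁻¹ * α x * g = c * (c⁻¹ * (g⁻¹ * α x * g) * c) * c⁻¹ := by group
    rw [h5, h, mul_one, mul_inv_cancel]
  have key : ∀ e : N, e * x = x * e → ∃ y1 ∈ std Γ1 B1 (cl v), ∃ y2 ∈ std Γ1 B1 (nb v),
      c⁻¹ * (g⁻¹ * α e * g) * c = y1 * y2 ∧
      y1 * (c⁻¹ * (g⁻¹ * α x * g) * c) = c⁻¹ * (g⁻¹ * α x * g) * c * y1 := by
    intro e he
    have h1 : c⁻¹ * (g⁻¹ * α e * g) * c * (c⁻¹ * (g⁻¹ * α x * g) * c) =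
        c⁻¹ * (g⁻¹ * α x * g) * c * (c⁻¹ * (g⁻¹ * α e * g) * c) := by
      have h2 : α e * α x = α x * α e := by rw [← map_mul, he, map_mul]
      calc c⁻¹ * (g⁻¹ * α e * g) * c * (c⁻¹ * (g⁻¹ * α x * g) * c) =
          c⁻¹ * g⁻¹ * (α e * α x) * g * c := by group
        _ = c⁻¹ * g⁻¹ * (α x * α e) * g * c := by rw [h2]
        _ = c⁻¹ * (g⁻¹ * α x * g) * c * (c⁻¹ * (g⁻¹ * α e * g) * c) := by group
    obtain ⟨y1, hy1, y2, hy2, h3, h4⟩ := hB3 V1 Γ1 B1 T _ hM _ h1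
    exact ⟨y1, hTc _ hy1, y2, hpp _ hy2, h3, h4⟩
  obtain ⟨y1, hy1, y2, hy2, hay, hyc⟩ := key a hax
  obtain ⟨z1, hz1, z2, hz2, hbz, hzc⟩ := key b hbx
  obtain ⟨z, hz⟩ := hB2 V1 Γ1 B1 (fun _ => inferInstance) (cl v) (ind_cl v) _ hd hd1
  obtain ⟨i, hi⟩ := Subgroup.mem_zpowers_iff.1 (hz y1 hy1 hyc)
  obtain ⟨j, hj⟩ := Subgroup.mem_zpowers_iff.1 (hz z1 hz1 hzc)
  have hyz : y1 * z1 = z1 * y1 := by
    rw [← hi, ← hj]
    exact (Commute.refl z).zpow_zpow i j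
  have hy1z2 := comm_std v hy1 hz2
  have hy1y2 := comm_std v hy1 hy2
  have hz1y2 := comm_std v hz1 hy2
  have hz1z2 := comm_std v hz1 hz2
  -- the commutator
  have hcomm : y1 * y2 * (z1 * z2) * (y1 * y2)⁻¹ * (z1 * z2)⁻¹ = y2 * z2 * y2⁻¹ * z2⁻¹ := by
    have e1 : y1 * y2 * (z1 * z2) = z1 * y1 * (y2 * z2) := by
      calc y1 * y2 * (z1 * z2) = y1 * (y2 * z1) * z2 := by group
        _ = y1 * (z1 * y2) * z2 := by rw [hz1y2]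
        _ = (y1 * z1) * (y2 * z2) := by group
        _ = z1 * y1 * (y2 * z2) := by rw [hyz]
    have e2 : z1 * z2 * (y1 * y2) = z1 * y1 * (z2 * y2) := by
      calc z1 * z2 * (y1 * y2) = z1 * (z2 * y1) * y2 := by group
        _ = z1 * (y1 * z2) * y2 := by rw [hy1z2]
        _ = z1 * y1 * (z2 * y2) := by group
    have hw : y2 * z2 * y2⁻¹ * z2⁻¹ ∈ std Γ1 B1 (nb v) :=
      mul_mem (mul_mem (mul_mem hy2 hz2) (inv_mem hy2)) (inv_mem hz2)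
    have e3 := comm_std v (mul_mem hz1 hy1) hw
    have e4 : y1 * y2 * (z1 * z2) * (y1 * y2)⁻¹ * (z1 * z2)⁻¹ =
        (y1 * y2 * (z1 * z2)) * (z1 * z2 * (y1 * y2))⁻¹ := by group
    rw [e4, e1, e2]
    calc z1 * y1 * (y2 * z2) * (z1 * y1 * (z2 * y2))⁻¹ =
        z1 * y1 * (y2 * z2 * y2⁻¹ * z2⁻¹) * (z1 * y1)⁻¹ := by group
      _ = (y2 * z2 * y2⁻¹ * z2⁻¹) * (z1 * y1) * (z1 * y1)⁻¹ := by rw [e3]
      _ = y2 * z2 * y2⁻¹ * z2⁻¹ := by group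
  have hw : y2 * z2 * y2⁻¹ * z2⁻¹ ∈ std Γ1 B1 (nb v) :=
    mul_mem (mul_mem (mul_mem hy2 hz2) (inv_mem hy2)) (inv_mem hz2)
  have e5 : g⁻¹ * α (a * b * a⁻¹ * b⁻¹) * g = c * (y1 * y2 * (z1 * z2) * (y1 * y2)⁻¹ *
      (z1 * z2)⁻¹) * c⁻¹ := by
    rw [← hay, ← hbz, map_mul, map_mul, map_mul, map_inv, map_inv]
    group
  refine mem_pb.2 ?_
  rw [e5, hcomm, comm_std v hc hw, mul_assoc, mul_inv_cancel, mul_one]
  exact hw

end Pool.Agent.H404.QC
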